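import Pool.Agent.W547.LD.Defs
import Pool.Agent.W530.NF.Defs

/-!
# The motives generated by an abelian variety of CM type of dimension at most seven
-/

namespace Pool.Agent.W547.TM

open Pool.Agent.W547.KB Pool.Agent.W547.LD Pool.Agent.W530.NF Pool.Agent.H204R3.GP
open scoped TensorProduct

/-- The linear map `f : V ^ {⊗ s} → V ^ {⊗ t}` is a linear combination, with coefficients in `K`, of
maps given by classes `g i ∈ H^{s + t}(X ^ {s + t}, ℚ)` in the ring `DWRing (X ^ {s + t})` generated
by divisors and by pull-backs of split Weil classes on fourfolds and sixfolds: of their components in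
the tensor product of the `s + t` spaces `H^1(X, ℚ)`. -/
def IsCombination {X : CMAV} {K V : Type} [Field K] [AddCommGroup V] [Module K V]
    (T : Realization X K V) {s t : ℕ}
    (f : (⨂[K] _ : Fin s, V) →ₗ[K] (⨂[K] _ : Fin t, V)) : Prop :=
  ∃ (n : ℕ) (a : Fin n → K) (g : Fin n → (pow X (Fin s ⊕ Fin t)).H1 [⋀^Fin s ⊕ Fin t]→ₗ[ℚ] ℚ),
    (∀ i, DWRing _ _ (g i)) ∧
      ∀ x y, value T f x y = ∑ i, a i * (g i (fun k => inc X k (Sum.elim x y k)) : K)

/-- All homomorphisms `V ^ {⊗ s} (c) → V ^ {⊗ t} (d)` of `ℓ`-adic realizations that commute with a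
subgroup of finite index of the Galois group are linear combinations of homomorphisms given by
classes in the rings `DWRing (X ^ {s + t})`. -/
def HomsGenerated {X : CMAV} {K V : Type} [Field K] [AddCommGroup V] [Module K V]
    (T : Realization X K V) : Prop :=
  ∀ s t c d : ℕ, s + 2 * c = t + 2 * d →
    ∀ f : (⨂[K] _ : Fin s, V) →ₗ[K] (⨂[K] _ : Fin t, V),
      IsTateHom T.ρ T.χ c d f → IsCombination T f

end Pool.Agent.W547.TM
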