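import Pool.Agent.W547.LD.Main
import Pool.Agent.W530.NF.Main
import Pool.Agent.W547.TM.Defs

/-!
# The motives generated by an abelian variety of CM type of dimension at most seven
-/

set_option linter.unusedSectionVars false
set_option linter.unusedVariables false

namespace Pool.Agent.W547.TM

open NumberField Pool.Agent.H204R3.CM Pool.Agent.W547.KB Pool.Agent.W547.LD Pool.Agent.W530.NF
open Equiv Module

noncomputable section

/-- Hodge classes on products of copies of one abelian variety. -/
theorem ring_of_hodge_copies (A : CMPair) (hA : finrank ℚ A.E ≤ 14) (X : CMAV)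
    (hX : ∀ i, X.factor i = A) {κ : Type} [Finite κ]
    (f : X.H1 [⋀^κ]→ₗ[ℚ] ℚ) (hf : IsHodge X.per f) : DWRing X κ f := by
  classical
  obtain ⟨J, fac⟩ := X
  have hfac : fac = fun _ => A := funext hX
  subst hfac
  rcases isEmpty_or_nonempty J with hJ | ⟨⟨i0⟩⟩
  · have := Fintype.ofFinite κ
    rcases isEmpty_or_nonempty κ with hκ | ⟨⟨k0⟩⟩
    · exact DWRing.unit f
    · have h1 : f = 0 := by
        ext v
        have h2 : v k0 = 0 := by
          funext i
          exact hJ.elim i
        rw [f.map_coord_zero k0 h2]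
        rfl
      rw [h1]
      exact DWRing.zero κ
  refine ring_of_mono _ ?_ f hf
  intro L _ _ _ _ j hj _ _ I hb
  have hj' : ∀ ψ : A.E →+* ℂ, ∃ φ : A.E →+* L, j.comp φ = ψ := fun ψ => hj i0 ψ
  exact algX_of_balanced j (stable_hs A j) (compl_hs A j) (fun S hS => by
    obtain ⟨φ, rfl⟩ := hS
    exact isHalf_hs A j φ) (trans_hs A j) ((ncard_hs A j hj').trans hA) _ _ κ rfl
    (fun k => St j (I k)) (fun k => ⟨(I k).2, rfl⟩) hb I (fun k => rfl)

theorem homs (A : CMPair) (hA : finrank ℚ A.E ≤ 14) {K V : Type} [Field K] [CharZero K]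
    [AddCommGroup V] [Module K V] (T : Realization (single A) K V) (w : AbsoluteValue ℂ ℝ) (q : ℕ)
    (π : (single A).H1) (γ : T.G) (hT : IsFrobenius T w q π γ) : HomsGenerated T := by
  let _ : Algebra ℚ K := DivisionRing.toRatAlgebra
  intro s t c d hst f hf
  obtain ⟨n, a, g, hg, h⟩ := Pool.Agent.W530.NF.homs A (single A) T w q π γ hT s t c d hst f hf
  exact ⟨n, a, g, fun i => ring_of_hodge_copies A hA _ (fun _ => rfl) (g i)
    ((isHodge_iff A _ (g i)).2 (hg i)), h⟩

end

end Pool.Agent.W547.TM
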